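import Pool.Agent.Q284.Sync.Defs

/-!
# MP_713645_co, Q1 and Q2: descents and excedances are strongly synchronised on even
permutations and on odd permutations
-/

namespace Pool.Agent.Results.MP_713645_co.DesExcSynchronised

open Pool.Agent.Q284.Sync

/-- For every positive integer `n` the sequences `(A⁺_{n,k})_{k=0}^{n-1}` and
`(P_{n,k})_{k=0}^{n-1}` are strongly synchronised (Q1), and so are `(A⁻_{n,k})_{k=0}^{n-1}` and
`(Q_{n,k})_{k=0}^{n-1}` (Q2). -/
theorem result : (∀ n : ℕ, 1 ≤ n → StrongSync (n - 1) (Aplus n) (Pnum n)) ∧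
    (∀ n : ℕ, 1 ≤ n → StrongSync (n - 1) (Aminus n) (Qnum n)) := by
  constructor
  · intro n hn
    obtain ⟨m, rfl⟩ : ∃ m, n = m + 1 := ⟨n - 1, by omega⟩
    rw [Nat.add_sub_cancel]
    exact strong_of_syncI m _ _ _ _ (Aplus_eq m) (Pnum_eq m) (sync_main2 m)
  · intro n hn
    obtain ⟨m, rfl⟩ : ∃ m, n = m + 1 := ⟨n - 1, by omega⟩
    rw [Nat.add_sub_cancel]
    exact strong_of_syncI m _ _ _ _ (Aminus_eq m) (Qnum_eq m) (sync_main3 m)

end Pool.Agent.Results.MP_713645_co.DesExcSynchronised
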